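import Mathlib
import Pool.Agent.MP_59bbdb_co.LinMain

/-!
# The relaxed Tverberg equality in every dimension for `n ≥ 79 m / 80`

Sketch (`r = m - n`, `D = d + 1`).  `D` clusters of `m - 1` points near the vertices of a simplex.
In the direction of every other vertex the points of a cluster are completely ordered by size
(levels `S ^ lev`, `LinGeom`); if the hulls of the parts in `I` have a common point, then for every
cluster `j` that misses a part `β j ∈ I` there is a cluster `φ j` meeting all parts in `I`, with `φ`
monotone, such that in the order of `φ j` towards `j` the first point whose part is in `I` is in the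
part `β j` if its part meets the cluster `φ j` only once (`LinTrop`).  Every order reads two chains
of `32 r` points, cyclically from the number `⌊j / 16⌋` on; a random bit of the pair of clusters
decides which chain comes first (`LinLevel`).  Given a split into `m` parts, a grouping of the
parts into groups of `r` is chosen such that clusters with repeated parts disturb little (`LinZ`);
for the complements `I` of the 80 groups most of the windows of 16 consecutive clusters `j` see one
cluster `φ j` each, and then the 16 bits are determined up to complement by the missing parts,
for all groups at the same time (`LinC`, `LinMain`).  A first moment count shows that this is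
impossible for some table of bits (`LinU`).
-/

set_option autoImplicit false

open Pool.Agent.MP_59bbdb_co.Lin

namespace Pool.Agent.Results.MP_59bbdb_co.AllDimLinearGap

/-- For all `d ≥ 1` and `1 ≤ n < m` with `80 (m - n) ≤ m`, some set of `(m - 1) (d + 1)` points
of `ℝ ^ d` has, for every split into `m` parts, some `n` parts whose convex hulls share no
common point. -/
theorem result : ∀ d m n : ℕ, 1 ≤ d → 1 ≤ n → n < m → 80 * (m - n) ≤ m →
    ∃ S : Finset (EuclideanSpace ℝ (Fin d)),
      S.card = (m - 1) * (d + 1) ∧
      ∀ f : EuclideanSpace ℝ (Fin d) → Fin m,
        ∃ I : Finset (Fin m), I.card = n ∧
          (⋂ i ∈ I, convexHull ℝ {x : EuclideanSpace ℝ (Fin d) | x ∈ S ∧ f x = i}) = ∅ := by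
  intro d m n hd _ hnm hb
  exact configL d m n (m - n) hd (by omega) (by omega) hb

end Pool.Agent.Results.MP_59bbdb_co.AllDimLinearGap
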