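import Mathlib
import Pool.Agent.MP_59bbdb_co.NumA

/-!
# The relaxed Tverberg equality for `m = n + 1`, `n ≥ 5`, in every dimension

Sketch.  Put `N = d + 1` clusters of `n` points near the vertices of a simplex; the point `a` of
the cluster `i` is pushed away from the vertex `i` by `ε T ^ (i j)` in the direction of the vertex
`j`, times a further large factor `S` for one of the `n` points, the owner `own i j`, which is
chosen at random among four points of the cluster.  In the limit `ε → 0` (compactness) and for
large `T` and `S`, a common point of all colour classes but one yields a monotone assignment of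
columns to rows of the missing colour such that the owners spell the word of missing colours
(`trop`).  A greedy first-moment count (`card_covering_le`) shows that fewer than
`((n + 1) (69 / 2) / 3 ^ n) ^ N < 1` of all ownership tables admit a colouring for which all the
`n`-fold intersections are nonempty.
-/

set_option autoImplicit false

open Pool.Agent.MP_59bbdb_co

namespace Pool.Agent.Results.MP_59bbdb_co.AllDimSuccessor

/-- For all `d ≥ 1` and `n ≥ 5` some set of `n (d + 1)` points of `ℝ ^ d` has, for every split
into `n + 1` parts, some `n` parts whose convex hulls share no common point. -/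
theorem result : ∀ d n : ℕ, 1 ≤ d → 5 ≤ n →
    ∃ S : Finset (EuclideanSpace ℝ (Fin d)),
      S.card = n * (d + 1) ∧
      ∀ f : EuclideanSpace ℝ (Fin d) → Fin (n + 1),
        ∃ I : Finset (Fin (n + 1)), I.card = n ∧
          (⋂ i ∈ I, convexHull ℝ {x : EuclideanSpace ℝ (Fin d) | x ∈ S ∧ f x = i}) = ∅ :=
  fun d n hd hn => configA d n hd hn

end Pool.Agent.Results.MP_59bbdb_co.AllDimSuccessor
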