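import Mathlib
import Pool.Agent.Rez.Main

/-!
# The relaxed Tverberg equality in every dimension for `n ≥ 10 ^ 7 m ^ (2 / 3) log m`

Sketch (`D = d + 1`, `q ≥ 8 m / n`, `l ≥ log m`).  `D` clusters of `m - 1` points near the vertices of
a simplex.  In the direction of the vertex `j` the points of the cluster `k` have levels `lev k j`; if
the hulls of the parts in `I` have a common point, then every cluster `j` missing a part `b j ∈ I` has
a hub `φ j`, `φ` monotone, whose point of part `b j` lies weakly above a representative of every part
in `I` (`Rey.Geo`).  Levels: the points of a cluster are cut into `R ≈ q l ^ 2` blocks; the pair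
`(k, j)` reads only `h ≈ l` random blocks, or, with probability `1 / T ≈ 1 / (q l)`, only one random
point.

Given a split for which all `n` parts always meet, take `I0` with at most `n / 2` parts.  The
pointwise minimal monotone hub maps for all `I ⊇ I0` with `|I| ≤ |I0| + n / 2` give `n / 2 + 1`
monotone maps with different hubs at every row, all valid for `I0` (`Env`).  A first moment count
over the heads of the blocks of the parts in `I0` and over monotone maps, with weights depending on
the multiplicities of the parts (`Cnt`, `LA`, `Hds`), shows that most hubs are clusters missing many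
parts (`App`).  For random `I0` such hubs are few (`Nl`, `Suit`), so they stay constant on long
intervals of rows; for a random family of `m ^ 2` sets `I0` this contradicts a first moment count for
the single points (`Ave`, `Fam`, `Wnd`, `LB`).
-/

set_option autoImplicit false

namespace Pool.Agent.Results.MP_59bbdb_co.AllDimTwoThirds

/-- For all `d ≥ 1` and `2 ≤ n ≤ m` with `10 ^ 21 * m ^ 2 * (log m) ^ 3 ≤ n ^ 3`, some set of
`(m - 1) (d + 1)` points of `ℝ ^ d` has, for every split into `m` parts, some `n` parts whose convex
hulls share no common point. -/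
theorem result : ∀ d m n : ℕ, 1 ≤ d → 2 ≤ n → n ≤ m →
    10 ^ 21 * (m : ℝ) ^ 2 * (Real.log m) ^ 3 ≤ (n : ℝ) ^ 3 →
    ∃ S : Finset (EuclideanSpace ℝ (Fin d)),
      S.card = (m - 1) * (d + 1) ∧
      ∀ f : EuclideanSpace ℝ (Fin d) → Fin m,
        ∃ I : Finset (Fin m), I.card = n ∧
          (⋂ i ∈ I, convexHull ℝ {x : EuclideanSpace ℝ (Fin d) | x ∈ S ∧ f x = i}) = ∅ := by
  intro d m n hd hn hnm h
  obtain ⟨q, l, hp⟩ := Pool.Agent.Rez.par_of2 hn hnm h
  exact Pool.Agent.Rez.main2 hp hd

end Pool.Agent.Results.MP_59bbdb_co.AllDimTwoThirds
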