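import Mathlib
import Pool.Agent.MP_59bbdb_co.QuadMain

/-!
# The relaxed Tverberg equality for `d` up to `n ^ 2 / 4` and every `m`

Sketch (`D = d + 1`).  `D` clusters of `m - 1` points near the vertices of a simplex.  The points of
a cluster are ordered by their distance from the vertex, in the same way in all directions
(`LinGeom` with `lev k j a = a`).  Every cluster misses a part.  If the hulls of the parts in `I`
have a common point and `x ∈ I` is missing in some cluster, then some cluster `k` meets all parts of
`I`, and the points of `k` whose part is in `I` and meets `k` only once lie weakly below a point of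
part `x` (`LinTrop`): say that `k` offers `x` for `I`.

Given a split, let `C` be the set of all parts that are missing in some cluster, `p = |C|`.  If
`p < t`, take `I ⊇ C`.  Otherwise count the triples `(k, H, x)` with `H ⊆ C`, `|H| = t`, `x ∈ H` and
`k` offers `x` for `H`: for each `k` there are at most `(p - 1).choose t` pairs `(H, x)`
(`card_off_le`; if no part is repeated in `k`, then `x` is the top part of `H` in `k`, and `H` avoids
a missing part of `k`).  So for some `H` and `x ∈ H` at most `D (p - t) / (p t) < n - t + 1`
clusters offer `x` for `H`; add to `H` one missing part of each of them.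
-/

set_option autoImplicit false

open Pool.Agent.MP_59bbdb_co.Quad

namespace Pool.Agent.Results.MP_59bbdb_co.QuadraticDimension

/-- For `d ≥ 1` and `1 ≤ n ≤ m` with `4 (d + 1) ≤ (n + 1) ^ 2`, and more generally whenever
`(d + 1) (m - t) < m t (n - t + 1)` for some `1 ≤ t ≤ n`, some set of `(m - 1) (d + 1)` points of
`ℝ ^ d` has, for every split into `m` parts, some `n` parts whose convex hulls share no common
point. -/
theorem result : ∀ d m n : ℕ, 1 ≤ d → 1 ≤ n → n ≤ m →
    (4 * (d + 1) ≤ (n + 1) ^ 2 ∨
      ∃ t : ℕ, 1 ≤ t ∧ t ≤ n ∧ (d + 1) * (m - t) < m * (t * (n - t + 1))) →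
    ∃ S : Finset (EuclideanSpace ℝ (Fin d)),
      S.card = (m - 1) * (d + 1) ∧
      ∀ f : EuclideanSpace ℝ (Fin d) → Fin m,
        ∃ I : Finset (Fin m), I.card = n ∧
          (⋂ i ∈ I, convexHull ℝ {x : EuclideanSpace ℝ (Fin d) | x ∈ S ∧ f x = i}) = ∅ := by
  intro d m n hd hn hnm h
  rcases h with h | ⟨t, ht, htn, hb⟩
  · have key : ∃ t : ℕ, 1 ≤ t ∧ t ≤ n ∧ d + 1 ≤ t * (n - t + 1) := by
      rcases Nat.even_or_odd' n with ⟨s, hs | hs⟩
      · refine ⟨s, by omega, by omega, ?_⟩
        have e : n - s + 1 = s + 1 := by omega
        rw [e]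
        subst hs
        nlinarith
      · refine ⟨s + 1, by omega, by omega, ?_⟩
        have e : n - (s + 1) + 1 = s + 1 := by omega
        rw [e]
        subst hs
        nlinarith
    obtain ⟨t, ht, htn, hle⟩ := key
    refine configQ d m n t hd ht htn hnm ?_
    have h1 : (d + 1) * (m - t) < (d + 1) * m := Nat.mul_lt_mul_of_pos_left (by omega) (by omega)
    calc (d + 1) * (m - t) < (d + 1) * m := h1
      _ = m * (d + 1) := by ring
      _ ≤ m * (t * (n - t + 1)) := Nat.mul_le_mul_left _ hle
  · exact configQ d m n t hd ht htn hnm hb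

end Pool.Agent.Results.MP_59bbdb_co.QuadraticDimension
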